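import Pool.Agent.L0h45.NF.Bas

/-!
# Project NF, module BOX (helper57): points of a class modulo an ideal in a product of discs
-/

set_option autoImplicit false

open NumberField

namespace Pool.Agent.L0h57.NF

open Pool.Agent.L0h45.NF

/-- the index of the interval -/
noncomputable def ix (ρ : ℝ) (m : ℕ) (t : ℝ) : ℕ := ⌊(t + ρ) * (m / (2 * ρ))⌋₊

lemma ix_le {ρ t : ℝ} {m : ℕ} (hρ : 0 < ρ) (ht : |t| ≤ ρ) : ix ρ m t ≤ m := by
  unfold ix
  apply Nat.floor_le_of_le
  have h1 : t + ρ ≤ 2 * ρ := by linarith [(abs_le.1 ht).2]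
  calc (t + ρ) * (m / (2 * ρ)) ≤ (2 * ρ) * (m / (2 * ρ)) :=
        mul_le_mul_of_nonneg_right h1 (by positivity)
    _ = m := by field_simp

lemma ix_eq {ρ t t' : ℝ} {m : ℕ} (hρ : 0 < ρ) (hm : 0 < m) (ht : |t| ≤ ρ) (ht' : |t'| ≤ ρ)
    (h : ix ρ m t = ix ρ m t') : |t - t'| ≤ 2 / m * ρ := by
  unfold ix at h
  have hm' : (0 : ℝ) < m := by exact_mod_cast hm
  have hc : (0 : ℝ) < m / (2 * ρ) := by positivity
  have h0 : 0 ≤ (t + ρ) * (m / (2 * ρ)) :=
    mul_nonneg (by linarith [(abs_le.1 ht).1]) hc.le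
  have h0' : 0 ≤ (t' + ρ) * (m / (2 * ρ)) :=
    mul_nonneg (by linarith [(abs_le.1 ht').1]) hc.le
  have h1 := Nat.floor_le h0
  have h2 := Nat.lt_floor_add_one ((t + ρ) * (m / (2 * ρ)))
  have h3 := Nat.floor_le h0'
  have h4 := Nat.lt_floor_add_one ((t' + ρ) * (m / (2 * ρ)))
  rw [h] at h1 h2
  have h5 : |(t - t') * (m / (2 * ρ))| ≤ 1 := by
    rw [abs_le]
    constructor <;> nlinarith
  rw [abs_mul, abs_of_pos hc] at h5
  have h6 : |t - t'| = |t - t'| * (m / (2 * ρ)) * (2 / m * ρ) := by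
    field_simp
  rw [h6]
  calc |t - t'| * (m / (2 * ρ)) * (2 / m * ρ) ≤ 1 * (2 / m * ρ) :=
        mul_le_mul_of_nonneg_right h5 (by positivity)
    _ = 2 / m * ρ := one_mul _

section

variable {F : Type} [Field F] [NumberField F]

lemma key {𝔞 : Ideal (𝓞 F)} {x y : 𝓞 F} (hxy : x ≠ y) (h : x - y ∈ 𝔞)
    (ρ c : (F →+* ℂ) → ℝ) (hc : ∀ σ : F →+* ℂ, ‖σ ((x - y : 𝓞 F) : F)‖ ≤ c σ * ρ σ) :
    NI 𝔞 ≤ (∏ σ, c σ) * ∏ σ, ρ σ := by
  have h1 := NI_le_Nm h (sub_ne_zero.2 hxy)
  rw [← prod_norm] at h1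
  refine h1.trans ?_
  rw [← Finset.prod_mul_distrib]
  exact Finset.prod_le_prod (fun σ _ => norm_nonneg _) fun σ _ => hc σ

lemma sub_map (σ : F →+* ℂ) (x y : 𝓞 F) : σ ((x - y : 𝓞 F) : F) = σ (x : F) - σ (y : F) := by
  rw [← map_sub]
  rfl

end

/-- **BOX** -/
theorem box : S_BOX := by
  intro F _ _ 𝔞 h𝔞 ρ hρ S hS
  classical
  obtain ⟨V, hV⟩ : ∃ V, V = ∏ σ, ρ σ := ⟨_, rfl⟩
  have hV0 : 0 < V := by
    rw [hV]
    exact Finset.prod_pos fun σ _ => hρ σ
  have hN : 1 ≤ NI 𝔞 := NI_ge_one h𝔞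
  have hN0 : 0 < NI 𝔞 := by linarith
  have hq : 0 ≤ V / NI 𝔞 := by positivity
  rw [← hV]
  rcases S.eq_empty_or_nonempty with rfl | ⟨x0, hx0⟩
  · simp only [Finset.card_empty, Nat.cast_zero]
    positivity
  obtain ⟨σ0⟩ : Nonempty (F →+* ℂ) := inferInstance
  by_cases hr : ComplexEmbedding.conjugate σ0 = σ0
  · -- the real case
    have him : ∀ z : F, (σ0 z).im = 0 := by
      intro z
      rw [← Complex.conj_eq_iff_im]
      conv_rhs => rw [← hr]
      rfl
    obtain ⟨m, hm⟩ : ∃ m : ℕ, m = ⌊2 * V / NI 𝔞⌋₊ + 1 := ⟨_, rfl⟩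
    have hm0 : 0 < m := by omega
    have hm0' : (0 : ℝ) < m := by exact_mod_cast hm0
    have hm1 : 2 * V / NI 𝔞 < m := by
      rw [hm]
      push_cast
      exact Nat.lt_floor_add_one _
    have hm2 : (m : ℝ) ≤ 2 * V / NI 𝔞 + 1 := by
      rw [hm]
      push_cast
      linarith [Nat.floor_le (show 0 ≤ 2 * V / NI 𝔞 by positivity)]
    have hre : ∀ x ∈ S, |(σ0 ((x - x0 : 𝓞 F) : F)).re| ≤ ρ σ0 := fun x hx =>
      (Complex.abs_re_le_norm _).trans ((hS x hx x0 hx0).2 σ0)
    have hcard : S.card ≤ (Finset.range (m + 1)).card := by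
      apply Finset.card_le_card_of_injOn (fun x => ix (ρ σ0) m (σ0 ((x - x0 : 𝓞 F) : F)).re)
      · intro x hx
        simp only [Finset.coe_range, Set.mem_Iio]
        exact Nat.lt_succ_of_le (ix_le (hρ σ0) (hre x hx))
      · intro x hx y hy hxy
        by_contra hne
        have h1 := ix_eq (hρ σ0) hm0 (hre x hx) (hre y hy) hxy
        have h2 := key hne (hS x hx y hy).1 ρ (fun σ => if σ = σ0 then 2 / m else 1) (by
          intro σ
          by_cases hσ : σ = σ0
          · subst hσ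
            rw [if_pos rfl]
            have h3 : ‖σ ((x - y : 𝓞 F) : F)‖ = |(σ ((x - x0 : 𝓞 F) : F)).re -
                (σ ((y - x0 : 𝓞 F) : F)).re| := by
              rw [← Complex.sub_re, sub_map, sub_map, sub_map, sub_sub_sub_cancel_right,
                ← sub_map, Complex.abs_re_eq_norm.2 (him _)]
            rw [h3]
            exact h1
          · rw [if_neg hσ, one_mul]
            exact (hS x hx y hy).2 σ)
        rw [Finset.prod_ite_eq' Finset.univ σ0 (fun _ => (2 : ℝ) / m)] at h2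
        rw [if_pos (Finset.mem_univ _), ← hV] at h2
        rw [div_lt_iff₀ hN0] at hm1
        have h3 : 2 / (m : ℝ) * V * m = 2 * V := by field_simp
        have h4 := mul_le_mul_of_nonneg_right h2 hm0'.le
        linarith
    rw [Finset.card_range] at hcard
    have h5 : (S.card : ℝ) ≤ m + 1 := by exact_mod_cast hcard
    have h6 : 2 * V / NI 𝔞 = 2 * (V / NI 𝔞) := by ring
    rw [h6] at hm2
    linarith
  · -- the complex case
    have hcj : ∀ z : F, ‖ComplexEmbedding.conjugate σ0 z‖ = ‖σ0 z‖ := by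
      intro z
      exact RCLike.norm_conj _
    obtain ⟨r, hr'⟩ : ∃ r, r = min (ρ σ0) (ρ (ComplexEmbedding.conjugate σ0)) := ⟨_, rfl⟩
    have hr0 : 0 < r := by
      rw [hr']
      exact lt_min (hρ _) (hρ _)
    have hr1 : r ≤ ρ σ0 := by rw [hr']; exact min_le_left _ _
    have hr2 : r ≤ ρ (ComplexEmbedding.conjugate σ0) := by rw [hr']; exact min_le_right _ _
    have hd : ∀ x ∈ S, ∀ y ∈ S, ‖σ0 ((x - y : 𝓞 F) : F)‖ ≤ r := by
      intro x hx y hy
      rw [hr']
      apply le_min ((hS x hx y hy).2 σ0)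
      rw [← hcj]
      exact (hS x hx y hy).2 _
    obtain ⟨m, hm⟩ : ∃ m : ℕ, m = ⌊√(8 * V / NI 𝔞)⌋₊ + 1 := ⟨_, rfl⟩
    have hm0 : 0 < m := by omega
    have hm0' : (0 : ℝ) < m := by exact_mod_cast hm0
    have hs0 : 0 ≤ 8 * V / NI 𝔞 := by positivity
    have hsq := Real.sq_sqrt hs0
    have hsn := Real.sqrt_nonneg (8 * V / NI 𝔞)
    have hm1 : √(8 * V / NI 𝔞) < m := by
      rw [hm]
      push_cast
      exact Nat.lt_floor_add_one _
    have hm2 : (m : ℝ) ≤ √(8 * V / NI 𝔞) + 1 := by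
      rw [hm]
      push_cast
      linarith [Nat.floor_le hsn]
    have hre : ∀ x ∈ S, |(σ0 ((x - x0 : 𝓞 F) : F)).re| ≤ r := fun x hx =>
      (Complex.abs_re_le_norm _).trans (hd x hx x0 hx0)
    have him : ∀ x ∈ S, |(σ0 ((x - x0 : 𝓞 F) : F)).im| ≤ r := fun x hx =>
      (Complex.abs_im_le_norm _).trans (hd x hx x0 hx0)
    have hcard : S.card ≤ (Finset.range (m + 1) ×ˢ Finset.range (m + 1)).card := by
      apply Finset.card_le_card_of_injOn (fun x => (ix r m (σ0 ((x - x0 : 𝓞 F) : F)).re,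
        ix r m (σ0 ((x - x0 : 𝓞 F) : F)).im))
      · intro x hx
        rw [Finset.mem_coe, Finset.mem_product, Finset.mem_range, Finset.mem_range]
        exact ⟨Nat.lt_succ_of_le (ix_le hr0 (hre x hx)), Nat.lt_succ_of_le (ix_le hr0 (him x hx))⟩
      · intro x hx y hy hxy
        by_contra hne
        have h1 := ix_eq hr0 hm0 (hre x hx) (hre y hy) (Prod.ext_iff.1 hxy).1
        have h1' := ix_eq hr0 hm0 (him x hx) (him y hy) (Prod.ext_iff.1 hxy).2
        have h3 : σ0 ((x - y : 𝓞 F) : F) = σ0 ((x - x0 : 𝓞 F) : F) - σ0 ((y - x0 : 𝓞 F) : F) := by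
          rw [sub_map, sub_map, sub_map, sub_sub_sub_cancel_right]
        rw [← Complex.sub_re, ← h3] at h1
        rw [← Complex.sub_im, ← h3] at h1'
        have h4 : ‖σ0 ((x - y : 𝓞 F) : F)‖ ≤ √8 / m * r := by
          have h8 : √8 / m * r = √(8 / m ^ 2 * r ^ 2) := by
            rw [Real.sqrt_mul (by positivity), Real.sqrt_div (by norm_num), Real.sqrt_sq hm0'.le,
              Real.sqrt_sq hr0.le]
          rw [h8, Complex.norm_def]
          apply Real.sqrt_le_sqrt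
          rw [Complex.normSq_apply]
          have a1 := sq_le_sq' (by linarith [abs_nonneg (σ0 ((x - y : 𝓞 F) : F)).re,
            show 0 ≤ 2 / (m : ℝ) * r by positivity]) h1
          have a2 := sq_le_sq' (by linarith [abs_nonneg (σ0 ((x - y : 𝓞 F) : F)).im,
            show 0 ≤ 2 / (m : ℝ) * r by positivity]) h1'
          rw [sq_abs] at a1 a2
          have a3 : (2 / (m : ℝ) * r) ^ 2 = 4 / m ^ 2 * r ^ 2 := by ring
          have a4 : 8 / (m : ℝ) ^ 2 * r ^ 2 = 4 / m ^ 2 * r ^ 2 + 4 / m ^ 2 * r ^ 2 := by ring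
          rw [a3] at a1 a2
          rw [a4]
          nlinarith
        have h2 := key hne (hS x hx y hy).1 ρ
          (fun σ => if σ = σ0 ∨ σ = ComplexEmbedding.conjugate σ0 then √8 / m else 1) (by
          intro σ
          by_cases hσ : σ = σ0 ∨ σ = ComplexEmbedding.conjugate σ0
          · rw [if_pos hσ]
            rcases hσ with hσ | hσ
            · rw [hσ]
              exact h4.trans (mul_le_mul_of_nonneg_left hr1 (by positivity))
            · rw [hσ, hcj]
              exact h4.trans (mul_le_mul_of_nonneg_left hr2 (by positivity))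
          · rw [if_neg hσ, one_mul]
            exact (hS x hx y hy).2 σ)
        have h5 : (∏ σ : F →+* ℂ, if σ = σ0 ∨ σ = ComplexEmbedding.conjugate σ0 then √8 / (m : ℝ)
            else 1) = 8 / m ^ 2 := by
          rw [Finset.prod_ite, Finset.prod_const_one, mul_one, Finset.prod_const]
          have h6 : (Finset.univ.filter (fun σ : F →+* ℂ => σ = σ0 ∨
              σ = ComplexEmbedding.conjugate σ0)) = {σ0, ComplexEmbedding.conjugate σ0} := by
            ext σ
            simp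
          rw [h6, Finset.card_pair (fun h => hr h.symm), div_pow, Real.sq_sqrt (by norm_num)]
        rw [h5, ← hV] at h2
        have h6 : 8 * V / NI 𝔞 < (m : ℝ) ^ 2 := by
          rw [← hsq]
          exact pow_lt_pow_left₀ hm1 hsn (by norm_num)
        rw [div_lt_iff₀ hN0] at h6
        have h7 : 8 / (m : ℝ) ^ 2 * V * m ^ 2 = 8 * V := by field_simp
        have h8 := mul_le_mul_of_nonneg_right h2 (sq_nonneg (m : ℝ))
        linarith
    rw [Finset.card_product, Finset.card_range] at hcard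
    have h5 : (S.card : ℝ) ≤ (m + 1) * (m + 1) := by exact_mod_cast hcard
    have h6 : 8 * V / NI 𝔞 = 8 * (V / NI 𝔞) := by ring
    have h7 : ((m : ℝ) + 1) * (m + 1) ≤ (√(8 * V / NI 𝔞) + 2) * (√(8 * V / NI 𝔞) + 2) := by
      apply mul_le_mul <;> linarith
    nlinarith [sq_nonneg (√(8 * V / NI 𝔞) - 2)]

end Pool.Agent.L0h57.NF
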